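import Pool.Agent.Run7.h915.RB.BUA
import Pool.Agent.Run7.h275.RB10

/-! # ISO and NVC: the blowing-up of `C ≤ M ^ k` is an isomorphism where `C` is the unit ideal -/

set_option autoImplicit false
set_option linter.unusedVariables false

namespace Pool.Agent.Run7.h968.RB

open IsLocalRing Pool.Agent.W418.LU2 Pool.Agent.H918R2.Quad Pool.Agent.Run7.h275.RL
open Pool.Agent.Run7.h275.RB Pool.Agent.Run7.h915.RB

section aux

variable {O F : Type} [CommRing O] [Field F] [Algebra O F]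

/-- An element of `C` which does not vanish at `V` has the maximal value in `C`. -/
lemma mx_of_not_vn' {M : Submodule O F} (hM : Md M) {k : ℕ}
    {C : Submodule O F} (hC : C ≤ M ^ k) {V : ValuationSubring F} (hV : Cn O V)
    {c₀ : F} (hc₀ : c₀ ∈ C) (h : ¬ Vn M k V c₀) : Mx C V c₀ := by
  obtain ⟨w, hw⟩ := exists_Mx hM hV
  have h1 : V.valuation c₀ = V.valuation w ^ k := (hw.not_vn_iff hV (hC hc₀)).1 h
  have h2 : 0 < V.valuation c₀ := by
    rw [h1]
    exact pow_pos hw.pos k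
  refine ⟨hc₀, (Valuation.pos_iff _).1 h2, fun m hm => ?_⟩
  rw [← V.valuation_le_one_iff, map_div₀]
  refine div_le_one_of_le₀ ?_ zero_le
  rw [h1]
  exact hw.pow_le hV (hC hm)

end aux

theorem t_ISO : S_ISO := by
  intro O F _ _ _ M C k hM hCM hC V hV hs Q hQ
  obtain ⟨c₀, hc₀, hc₀V⟩ := hs
  have hc₀x := mx_of_not_vn' hM hC hV hc₀ hc₀V
  obtain ⟨w, hwM, hw0, hwV, rfl⟩ := hQ
  have hw : Mx M V w := ⟨hwM, hw0, hwV⟩
  have hx := hw.mul hc₀x
  refine ⟨w * c₀, hx.1, hx.2.1, hx.2.2, ?_⟩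
  have hc₀k : c₀ ∈ M ^ k := hC hc₀
  have hval : V.valuation c₀ = V.valuation w ^ k := (hw.not_vn_iff hV hc₀k).1 hc₀V
  apply lo_eq (chart_le_V hV hwV)
  · -- `O[M / w] ≤ O[M C / (w c₀)]`
    have : chart O M w ≤ chart O (M * C) (w * c₀) := Algebra.adjoin_le (by
      rintro _ ⟨m, hm, rfl⟩
      refine Algebra.subset_adjoin ⟨m * c₀, Submodule.mul_mem_mul hm hc₀, ?_⟩
      rw [mul_div_mul_right _ _ hc₀x.2.1])
    exact this
  · let A : Subalgebra O F := { lo V.toSubring (chart O M w).toSubring with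
      algebraMap_mem' := fun o => le_lo _ _ (Subalgebra.algebraMap_mem (chart O M w) o) }
    have hA : chart O (M * C) (w * c₀) ≤ A := Algebra.adjoin_le (by
      rintro _ ⟨m, hm, rfl⟩
      change m / (w * c₀) ∈ lo V.toSubring (chart O M w).toSubring
      refine Submodule.mul_induction_on hm (fun a ha b hb => ?_) (fun a b ha hb => ?_)
      · have h1 : a * b / (w * c₀) = a / w * (b / w ^ k * (c₀ / w ^ k)⁻¹) := by
          have := hc₀x.2.1
          field_simp
        rw [h1]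
        refine Subring.mul_mem _ (le_lo _ _ (Algebra.subset_adjoin ⟨a, ha, rfl⟩)) ?_
        refine ⟨b / w ^ k, pow_div_mem hw0 k b (hC hb), c₀ / w ^ k,
          pow_div_mem hw0 k c₀ hc₀k, div_ne_zero hc₀x.2.1 (pow_ne_zero k hw0), ?_, rfl⟩
        change (c₀ / w ^ k)⁻¹ ∈ V
        rw [← V.valuation_le_one_iff, map_inv₀, map_div₀, map_pow, hval,
          div_self (pow_ne_zero k hw.pos.ne'), inv_one]
      · rw [add_div]
        exact Subring.add_mem _ ha hb)
    exact hA

theorem t_NVC : S_NVC := by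
  intro O F _ _ _ M hM E k C hC V hV hs
  exact exists_not_vn hM hC hV hs

end Pool.Agent.Run7.h968.RB
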